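import Mathlib

/-!
# A snowflake curve with `|t - s| ≤ 25 |γ(s) - γ(t)|^2`

The curve has three complex coordinates, each a lacunary trigonometric series.
-/

set_option autoImplicit false

namespace Pool.Agent.Lib.Whitney

open Real

/-- The `k`-th term of the lacunary series. -/
noncomputable def term (k : ℕ) (t : ℝ) : ℂ :=
  (((1 / 2 : ℝ) ^ k : ℝ) : ℂ) * Complex.exp (Complex.I * ((π * 4 ^ k * t : ℝ) : ℂ))

lemma norm_term (k : ℕ) (t : ℝ) : ‖term k t‖ = (1 / 2 : ℝ) ^ k := by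
  rw [term, norm_mul, mul_comm Complex.I, Complex.norm_exp_ofReal_mul_I, mul_one,
    Complex.norm_real, Real.norm_eq_abs, abs_of_nonneg (by positivity)]

lemma term_sub (k : ℕ) (s t : ℝ) :
    ‖term k s - term k t‖ = (1 / 2 : ℝ) ^ k * ‖2 * Real.sin (π * 4 ^ k * (s - t) / 2)‖ := by
  have h : term k s - term k t = term k t *
      (Complex.exp (Complex.I * ((π * 4 ^ k * (s - t) : ℝ) : ℂ)) - 1) := by
    have key : Complex.exp (Complex.I * ((π * 4 ^ k * s : ℝ) : ℂ)) =
        Complex.exp (Complex.I * ((π * 4 ^ k * t : ℝ) : ℂ)) *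
          Complex.exp (Complex.I * ((π * 4 ^ k * (s - t) : ℝ) : ℂ)) := by
      rw [← Complex.exp_add]
      congr 1
      push_cast
      ring
    unfold term
    rw [key]
    ring
  rw [h, norm_mul, norm_term, Complex.norm_exp_I_mul_ofReal_sub_one]

lemma term_sub_le (k : ℕ) (s t : ℝ) :
    ‖term k s - term k t‖ ≤ π * 2 ^ k * |s - t| := by
  rw [term_sub, norm_mul, Real.norm_eq_abs, Real.norm_eq_abs]
  have h1 : |Real.sin (π * 4 ^ k * (s - t) / 2)| ≤ |π * 4 ^ k * (s - t) / 2| :=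
    Real.abs_sin_le_abs
  have h2 : |π * 4 ^ k * (s - t) / 2| = π * 4 ^ k * |s - t| / 2 := by
    rw [abs_div, abs_mul, abs_of_pos (by positivity : (0 : ℝ) < π * 4 ^ k), abs_of_pos (by norm_num : (0 : ℝ) < 2)]
  rw [h2] at h1
  calc (1 / 2 : ℝ) ^ k * (|2| * |Real.sin (π * 4 ^ k * (s - t) / 2)|)
      ≤ (1 / 2 : ℝ) ^ k * (2 * (π * 4 ^ k * |s - t| / 2)) := by
        rw [abs_of_pos (by norm_num : (0 : ℝ) < 2)]
        gcongr
    _ = π * ((1 / 2 : ℝ) ^ k * 4 ^ k) * |s - t| := by ring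
    _ = π * 2 ^ k * |s - t| := by
        rw [← mul_pow]; norm_num

lemma term_sub_le' (k : ℕ) (s t : ℝ) :
    ‖term k s - term k t‖ ≤ 2 * (1 / 2 : ℝ) ^ k := by
  calc ‖term k s - term k t‖ ≤ ‖term k s‖ + ‖term k t‖ := norm_sub_le _ _
    _ = 2 * (1 / 2 : ℝ) ^ k := by rw [norm_term, norm_term]; ring

lemma le_term_sub (k : ℕ) (s t : ℝ) (h : 4 ^ k * |s - t| ≤ 1) :
    2 * 2 ^ k * |s - t| ≤ ‖term k s - term k t‖ := by
  rw [term_sub, norm_mul, Real.norm_eq_abs, Real.norm_eq_abs,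
    abs_of_pos (by norm_num : (0 : ℝ) < 2)]
  set x : ℝ := π * 4 ^ k * |s - t| / 2 with hx
  have hx0 : 0 ≤ x := by positivity
  have hx1 : x ≤ π / 2 := by
    rw [hx]
    have : π * 4 ^ k * |s - t| ≤ π * 1 := by
      rw [mul_assoc]
      exact mul_le_mul_of_nonneg_left h pi_pos.le
    linarith
  have habs : |Real.sin (π * 4 ^ k * (s - t) / 2)| = Real.sin x := by
    rcases le_total 0 (s - t) with h0 | h0
    · have : π * 4 ^ k * (s - t) / 2 = x := by rw [hx, abs_of_nonneg h0]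
      rw [this]
      exact abs_of_nonneg (Real.sin_nonneg_of_nonneg_of_le_pi hx0 (by linarith [pi_pos]))
    · have : π * 4 ^ k * (s - t) / 2 = -x := by rw [hx, abs_of_nonpos h0]; ring
      rw [this, Real.sin_neg, abs_neg]
      exact abs_of_nonneg (Real.sin_nonneg_of_nonneg_of_le_pi hx0 (by linarith [pi_pos]))
  rw [habs]
  have hsin : 2 / π * x ≤ Real.sin x := Real.mul_le_sin hx0 hx1
  have hx2 : 2 / π * x = 4 ^ k * |s - t| := by
    rw [hx]; field_simp
  rw [hx2] at hsin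
  calc 2 * 2 ^ k * |s - t| = (1 / 2 : ℝ) ^ k * (2 * (4 ^ k * |s - t|)) := by
        have : (2 : ℝ) ^ k = (1 / 2 : ℝ) ^ k * 4 ^ k := by rw [← mul_pow]; norm_num
        rw [this]; ring
    _ ≤ (1 / 2 : ℝ) ^ k * (2 * Real.sin x) := by gcongr

lemma continuous_term (k : ℕ) : Continuous (term k) := by
  unfold term
  fun_prop

/-- The `i`-th coordinate of the curve. -/
noncomputable def coord (i : ℕ) (t : ℝ) : ℂ := ∑' l : ℕ, term (3 * l + i) t

lemma summable_bound (i : ℕ) : Summable (fun l : ℕ => (1 / 2 : ℝ) ^ (3 * l + i)) := by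
  have : (fun l : ℕ => (1 / 2 : ℝ) ^ (3 * l + i)) = fun l => (1 / 2 : ℝ) ^ i * (1 / 8 : ℝ) ^ l := by
    funext l
    rw [pow_add, pow_mul]
    norm_num
    ring
  rw [this]
  exact (summable_geometric_of_lt_one (by norm_num) (by norm_num)).mul_left _

lemma summable_term (i : ℕ) (t : ℝ) : Summable (fun l : ℕ => term (3 * l + i) t) :=
  Summable.of_norm_bounded (summable_bound i) (fun _ => (norm_term _ _).le)

lemma continuous_coord (i : ℕ) : Continuous (coord i) :=
  continuous_tsum (fun _ => continuous_term _) (summable_bound i)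
    (fun _ _ => (norm_term _ _).le)

/-- The main lower bound for one coordinate. -/
lemma le_coord_sub (n i : ℕ) (s t : ℝ) (h1 : 4 ^ (3 * n + i) * |s - t| ≤ 1)
    (h2 : 1 ≤ 4 ^ (3 * n + i + 1) * |s - t|) :
    (2 / 5) * 2 ^ (3 * n + i) * |s - t| ≤ ‖coord i s - coord i t‖ := by
  set k := 3 * n + i with hk
  set D : ℕ → ℂ := fun l => term (3 * l + i) s - term (3 * l + i) t with hD
  have hsumD : Summable D := (summable_term i s).sub (summable_term i t)
  have hdiff : coord i s - coord i t = ∑' l, D l := by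
    unfold coord
    rw [(summable_term i s).tsum_sub (summable_term i t)]
  have hsplit : (∑ l ∈ Finset.range n, D l) + D n + ∑' l, D (l + (n + 1)) = ∑' l, D l := by
    rw [← Finset.sum_range_succ]
    exact hsumD.sum_add_tsum_nat_add (n + 1)
  -- low terms
  have hlow : ‖∑ l ∈ Finset.range n, D l‖ ≤ π * 2 ^ k * |s - t| / 7 := by
    calc ‖∑ l ∈ Finset.range n, D l‖ ≤ ∑ l ∈ Finset.range n, ‖D l‖ := norm_sum_le _ _
      _ ≤ ∑ l ∈ Finset.range n, π * 2 ^ (3 * l + i) * |s - t| :=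
          Finset.sum_le_sum fun l _ => term_sub_le _ _ _
      _ = (π * 2 ^ i * |s - t|) * ∑ l ∈ Finset.range n, (8 : ℝ) ^ l := by
          rw [Finset.mul_sum]
          refine Finset.sum_congr rfl fun l _ => ?_
          rw [pow_add, pow_mul]
          norm_num
          ring
      _ ≤ (π * 2 ^ i * |s - t|) * (8 ^ n / 7) := by
          have : ∑ l ∈ Finset.range n, (8 : ℝ) ^ l = (8 ^ n - 1) / 7 := by
            rw [geom_sum_eq (by norm_num)]
            norm_num
          rw [this]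
          have h8 : (0 : ℝ) ≤ π * 2 ^ i * |s - t| := by positivity
          apply mul_le_mul_of_nonneg_left _ h8
          linarith
      _ = π * 2 ^ k * |s - t| / 7 := by
          rw [hk, pow_add, pow_mul]
          norm_num
          ring
  -- high terms
  have hbound2 : Summable (fun l : ℕ => 2 * (1 / 2 : ℝ) ^ (3 * (l + (n + 1)) + i)) := by
    have := (summable_nat_add_iff (n + 1)).mpr (summable_bound i)
    exact this.mul_left 2
  have hhigh : ‖∑' l, D (l + (n + 1))‖ ≤ 8 / 7 * 2 ^ k * |s - t| := by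
    calc ‖∑' l, D (l + (n + 1))‖
        ≤ ∑' l : ℕ, 2 * (1 / 2 : ℝ) ^ (3 * (l + (n + 1)) + i) :=
          tsum_of_norm_bounded hbound2.hasSum (fun l => term_sub_le' _ _ _)
      _ = ∑' l : ℕ, (1 / 4 * (1 / 2 : ℝ) ^ k) * (1 / 8 : ℝ) ^ l := by
          refine tsum_congr fun l => ?_
          have : 3 * (l + (n + 1)) + i = 3 * l + (k + 3) := by rw [hk]; ring
          rw [this, pow_add, pow_add, pow_mul]
          norm_num
          ring
      _ = 2 / 7 * (1 / 2 : ℝ) ^ k := by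
          rw [tsum_mul_left, tsum_geometric_of_lt_one (by norm_num) (by norm_num)]
          ring
      _ ≤ 2 / 7 * (4 * 2 ^ k * |s - t|) := by
          have h3 : (1 / 2 : ℝ) ^ k ≤ 4 * 2 ^ k * |s - t| := by
            have h4 : (1 / 2 : ℝ) ^ k * 1 ≤ (1 / 2 : ℝ) ^ k * (4 ^ (k + 1) * |s - t|) := by
              gcongr
            have h5 : (1 / 2 : ℝ) ^ k * (4 ^ (k + 1) * |s - t|) = 4 * 2 ^ k * |s - t| := by
              have : (2 : ℝ) ^ k = (1 / 2 : ℝ) ^ k * 4 ^ k := by rw [← mul_pow]; norm_num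
              rw [this]; ring
            linarith
          linarith
      _ = 8 / 7 * 2 ^ k * |s - t| := by ring
  have hmain : 2 * 2 ^ k * |s - t| ≤ ‖D n‖ := le_term_sub k s t h1
  have htri : ‖D n‖ ≤ ‖∑' l, D l‖ + ‖∑ l ∈ Finset.range n, D l‖ + ‖∑' l, D (l + (n + 1))‖ := by
    have : D n = (∑' l, D l) - (∑ l ∈ Finset.range n, D l) - ∑' l, D (l + (n + 1)) := by
      rw [← hsplit]; ring
    calc ‖D n‖ = ‖(∑' l, D l) - (∑ l ∈ Finset.range n, D l) - ∑' l, D (l + (n + 1))‖ := by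
          rw [← this]
      _ ≤ ‖(∑' l, D l) - (∑ l ∈ Finset.range n, D l)‖ + ‖∑' l, D (l + (n + 1))‖ :=
          norm_sub_le _ _
      _ ≤ _ := by
          gcongr
          exact norm_sub_le _ _
  rw [hdiff]
  have hpi : π < 3.15 := Real.pi_lt_d2
  have hnn : (0 : ℝ) ≤ 2 ^ k * |s - t| := by positivity
  have hfin : π * 2 ^ k * |s - t| / 7 ≤ 0.45 * (2 ^ k * |s - t|) := by
    have : π * (2 ^ k * |s - t|) ≤ 3.15 * (2 ^ k * |s - t|) :=
      mul_le_mul_of_nonneg_right hpi.le hnn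
    linarith
  nlinarith

/-- The curve, with values in `ℂ^3`. -/
noncomputable def curve (t : ℝ) : EuclideanSpace ℂ (Fin 3) :=
  WithLp.toLp 2 (fun i : Fin 3 => coord i t)

lemma continuous_curve : Continuous curve := by
  unfold curve
  have h : Continuous fun t : ℝ => (fun i : Fin 3 => coord i t) :=
    continuous_pi fun i => continuous_coord i
  exact (PiLp.continuous_toLp 2 _).comp h

/-- The inverse of the curve is 2-Hölder. -/
theorem abs_sub_le_curve {s t : ℝ} (hs : s ∈ Set.Icc (0 : ℝ) 1) (ht : t ∈ Set.Icc (0 : ℝ) 1) :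
    |s - t| ≤ 25 * ‖curve s - curve t‖ ^ 2 := by
  rcases eq_or_ne s t with h | h
  · rw [h, sub_self, abs_zero]; positivity
  have hpos : 0 < |s - t| := abs_pos.mpr (sub_ne_zero.mpr h)
  have hle : |s - t| ≤ 1 := by
    rw [abs_le]
    constructor <;> linarith [hs.1, hs.2, ht.1, ht.2]
  obtain ⟨k, hk1, hk2⟩ := exists_nat_pow_near (x := |s - t|⁻¹) (y := (4 : ℝ))
    ((one_le_inv₀ hpos).mpr hle) (by norm_num)
  have h1 : 4 ^ k * |s - t| ≤ 1 := by
    rw [← le_div_iff₀ hpos, one_div]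
    exact hk1
  have h2 : 1 ≤ 4 ^ (k + 1) * |s - t| := by
    rw [← div_le_iff₀ hpos, one_div]
    exact hk2.le
  have hmod : 3 * (k / 3) + k % 3 = k := Nat.div_add_mod k 3
  have hlt : k % 3 < 3 := Nat.mod_lt _ (by norm_num)
  have hmain := le_coord_sub (k / 3) (k % 3) s t (by rw [hmod]; exact h1) (by rw [hmod]; exact h2)
  rw [hmod] at hmain
  have hnorm : ‖coord (k % 3) s - coord (k % 3) t‖ ^ 2 ≤ ‖curve s - curve t‖ ^ 2 := by
    rw [EuclideanSpace.norm_sq_eq]
    have := Finset.single_le_sum (f := fun i : Fin 3 => ‖(curve s - curve t) i‖ ^ 2)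
      (fun i _ => by positivity) (Finset.mem_univ (⟨k % 3, hlt⟩ : Fin 3))
    exact this
  have hsq : ((2 / 5) * 2 ^ k * |s - t|) ^ 2 ≤ ‖coord (k % 3) s - coord (k % 3) t‖ ^ 2 := by
    gcongr
  have h4 : ((2 / 5) * 2 ^ k * |s - t|) ^ 2 = 4 / 25 * (4 ^ k * |s - t|) * |s - t| := by
    have : (4 : ℝ) ^ k = 2 ^ k * 2 ^ k := by rw [← mul_pow]; norm_num
    rw [this]; ring
  have h5 : 1 / 4 ≤ 4 ^ k * |s - t| := by
    rw [pow_succ] at h2
    linarith
  have h6 : 1 / 4 * |s - t| ≤ 4 ^ k * |s - t| * |s - t| :=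
    mul_le_mul_of_nonneg_right h5 hpos.le
  rw [h4] at hsq
  nlinarith

end Pool.Agent.Lib.Whitney
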